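import Mathlib

set_option autoImplicit false

namespace Pool.Agent.H396Z.Ferrier

open Complex Filter Topology

theorem norm_one_add_ge {σ : ℂ} (h : 0 ≤ σ.re) : 1 ≤ ‖1 + σ‖ ∧ ‖σ‖ ≤ ‖1 + σ‖ := by
  constructor
  · have := Complex.re_le_norm (1 + σ)
    simp only [add_re, one_re] at this
    linarith
  · rw [Complex.norm_eq_sqrt_sq_add_sq, Complex.norm_eq_sqrt_sq_add_sq]
    apply Real.sqrt_le_sqrt
    simp only [add_re, one_re, add_im, one_im, zero_add]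
    nlinarith

theorem norm_lam_add_ge {σ : ℂ} {l : ℝ} (hl : 1 ≤ l) (h : 0 ≤ σ.re) :
    l ≤ ‖(l : ℂ) + σ‖ ∧ ‖1 + σ‖ ≤ ‖(l : ℂ) + σ‖ := by
  constructor
  · have := Complex.re_le_norm ((l : ℂ) + σ)
    simp only [add_re, ofReal_re] at this
    linarith
  · rw [Complex.norm_eq_sqrt_sq_add_sq, Complex.norm_eq_sqrt_sq_add_sq]
    apply Real.sqrt_le_sqrt
    simp only [add_re, one_re, add_im, one_im, zero_add, ofReal_re, ofReal_im]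
    nlinarith

/-- The damping multiplier. -/
noncomputable def mult (N p : ℕ) (l : ℝ) (σ : ℂ) : ℂ :=
  Complex.exp (-((N + 1 : ℕ) : ℂ) * σ) * ((1 + σ)⁻¹) ^ N * ((l : ℂ) * ((l : ℂ) + σ)⁻¹) ^ p

theorem norm_mult (N p : ℕ) {l : ℝ} (hl : 1 ≤ l) (σ : ℂ) :
    ‖mult N p l σ‖ = Real.exp (-((N + 1 : ℕ) : ℝ) * σ.re) * (‖1 + σ‖⁻¹) ^ N *
      (l * ‖(l : ℂ) + σ‖⁻¹) ^ p := by
  unfold mult
  rw [norm_mul, norm_mul, norm_pow, norm_pow, norm_mul, norm_inv, norm_inv, Complex.norm_exp,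
    Complex.norm_real, Real.norm_eq_abs, abs_of_nonneg (by linarith : (0 : ℝ) ≤ l)]
  congr 3
  simp

/-- Bound for the multiplier against polynomial growth of degree `N`. -/
theorem mult_le_a (N p : ℕ) {l : ℝ} (hl : 1 ≤ l) {σ : ℂ} (h : 0 ≤ σ.re) :
    ‖1 + σ‖ ^ N * ‖mult N p l σ‖ ≤ 1 := by
  obtain ⟨h1, _⟩ := norm_one_add_ge h
  obtain ⟨h2, _⟩ := norm_lam_add_ge hl h
  rw [norm_mult N p hl]
  have e1 : Real.exp (-((N + 1 : ℕ) : ℝ) * σ.re) ≤ 1 := by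
    apply Real.exp_le_one_iff.2
    have : (0 : ℝ) ≤ ((N + 1 : ℕ) : ℝ) := Nat.cast_nonneg _
    nlinarith
  have e2 : (l * ‖(l : ℂ) + σ‖⁻¹) ^ p ≤ 1 := by
    apply pow_le_one₀ (by positivity)
    rw [← div_eq_mul_inv, div_le_one (by linarith)]
    exact h2
  have e3 : ‖1 + σ‖ ^ N * (‖1 + σ‖⁻¹) ^ N = 1 := by
    rw [← mul_pow, mul_inv_cancel₀ (by linarith), one_pow]
  calc _ = Real.exp (-((N + 1 : ℕ) : ℝ) * σ.re) * (‖1 + σ‖ ^ N * (‖1 + σ‖⁻¹) ^ N) *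
        (l * ‖(l : ℂ) + σ‖⁻¹) ^ p := by ring
    _ ≤ 1 * 1 * 1 := by
      rw [e3]
      gcongr
    _ = 1 := by norm_num

/-- Bound for the multiplier against polynomial growth of degree `M`, with decay. -/
theorem mult_le_b (N M : ℕ) {l : ℝ} (hl : 1 ≤ l) {σ : ℂ} (h : 0 ≤ σ.re) :
    ‖1 + σ‖ ^ M * ‖mult N (M + 1) l σ‖ ≤ l ^ (M + 1) * ‖1 + σ‖⁻¹ := by
  obtain ⟨h1, _⟩ := norm_one_add_ge h
  obtain ⟨_, h2⟩ := norm_lam_add_ge hl h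
  rw [norm_mult N (M + 1) hl]
  have e1 : Real.exp (-((N + 1 : ℕ) : ℝ) * σ.re) ≤ 1 := by
    apply Real.exp_le_one_iff.2
    have : (0 : ℝ) ≤ ((N + 1 : ℕ) : ℝ) := Nat.cast_nonneg _
    nlinarith
  have e2 : (‖1 + σ‖⁻¹) ^ N ≤ 1 := pow_le_one₀ (by positivity) (inv_le_one_of_one_le₀ h1)
  have e3 : (l * ‖(l : ℂ) + σ‖⁻¹) ^ (M + 1) ≤ (l * ‖1 + σ‖⁻¹) ^ (M + 1) := by
    gcongr
  have e4 : ‖1 + σ‖ ^ M * (‖1 + σ‖⁻¹) ^ M = 1 := by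
    rw [← mul_pow, mul_inv_cancel₀ (by linarith), one_pow]
  calc _ ≤ ‖1 + σ‖ ^ M * (1 * 1 * (l * ‖1 + σ‖⁻¹) ^ (M + 1)) := by gcongr
    _ = (‖1 + σ‖ ^ M * (‖1 + σ‖⁻¹) ^ M) * (l ^ (M + 1) * ‖1 + σ‖⁻¹) := by ring
    _ = _ := by rw [e4, one_mul]

/-- Bound for the multiplier against exponential growth, with decay. -/
theorem mult_le_c (N M : ℕ) {l : ℝ} (hl : 1 ≤ l) {σ : ℂ} (h : 0 ≤ σ.re) :
    Real.exp (((N + 1 : ℕ) : ℝ) * σ.re) * ‖1 + σ‖ ^ N * ‖mult N (M + 1) l σ‖ ≤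
      l ^ (M + 1) * ‖1 + σ‖⁻¹ := by
  obtain ⟨h1, _⟩ := norm_one_add_ge h
  obtain ⟨_, h2⟩ := norm_lam_add_ge hl h
  rw [norm_mult N (M + 1) hl]
  have e1 : Real.exp (((N + 1 : ℕ) : ℝ) * σ.re) * Real.exp (-((N + 1 : ℕ) : ℝ) * σ.re) = 1 := by
    rw [← Real.exp_add, neg_mul, add_neg_cancel, Real.exp_zero]
  have e2 : (‖1 + σ‖⁻¹) ^ M ≤ 1 := pow_le_one₀ (by positivity) (inv_le_one_of_one_le₀ h1)
  have e3 : (l * ‖(l : ℂ) + σ‖⁻¹) ^ (M + 1) ≤ (l * ‖1 + σ‖⁻¹) ^ (M + 1) := by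
    gcongr
  have e4 : ‖1 + σ‖ ^ N * (‖1 + σ‖⁻¹) ^ N = 1 := by
    rw [← mul_pow, mul_inv_cancel₀ (by linarith), one_pow]
  calc _ = (Real.exp (((N + 1 : ℕ) : ℝ) * σ.re) * Real.exp (-((N + 1 : ℕ) : ℝ) * σ.re)) *
        (‖1 + σ‖ ^ N * (‖1 + σ‖⁻¹) ^ N) * (l * ‖(l : ℂ) + σ‖⁻¹) ^ (M + 1) := by ring
    _ ≤ 1 * 1 * (l * ‖1 + σ‖⁻¹) ^ (M + 1) := by rw [e1, e4]; gcongr
    _ = (‖1 + σ‖⁻¹) ^ M * (l ^ (M + 1) * ‖1 + σ‖⁻¹) := by ring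
    _ ≤ 1 * (l ^ (M + 1) * ‖1 + σ‖⁻¹) := by gcongr
    _ = _ := one_mul _

theorem mult_diff (N p : ℕ) {l : ℝ} (hl : 1 ≤ l) :
    DifferentiableOn ℂ (mult N p l) {σ : ℂ | 0 ≤ σ.re} := by
  intro σ hσ
  have h1 : (1 + σ) ≠ 0 := by
    have := (norm_one_add_ge hσ).1
    intro h; rw [h, norm_zero] at this; linarith
  have h2 : ((l : ℂ) + σ) ≠ 0 := by
    have := (norm_lam_add_ge hl hσ).1
    intro h; rw [h, norm_zero] at this; linarith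
  apply DifferentiableAt.differentiableWithinAt
  unfold mult
  fun_prop (disch := assumption)

/-- The strip estimate. -/
theorem strip_bound (g : ℂ → ℂ) (hg : Differentiable ℂ g) (N M : ℕ) {l R T a b c : ℝ}
    (hl : 1 ≤ l) (hR : 2 ≤ R) (hT : 0 < T) (ha : 0 ≤ a) (hb : 0 ≤ b) (hc : 0 ≤ c)
    (h1 : ∀ σ : ℂ, σ.re = 0 → ‖σ‖ ≤ T → ‖g σ‖ ≤ a * ‖1 + σ‖ ^ N)
    (h2 : ∀ σ : ℂ, 0 ≤ σ.re → ‖g σ‖ ≤ b * Real.exp (((M + 1 : ℕ) : ℝ) * σ.re) * ‖1 + σ‖ ^ M)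
    (h3 : ∀ σ : ℂ, σ.re = R →
      ‖g σ‖ ≤ c * (Real.exp (((N + 1 : ℕ) : ℝ) * σ.re) * ‖1 + σ‖ ^ N)) :
    ‖g 2‖ * ‖mult N (M + 1) l 2‖ ≤ a + b * l ^ (M + 1) * T⁻¹ + c * l ^ (M + 1) * R⁻¹ := by
  have hl0 : 0 ≤ l := by linarith
  have hR0 : 0 < R := by linarith
  have t1 : 0 ≤ b * l ^ (M + 1) * T⁻¹ := by positivity
  have t2 : 0 ≤ c * l ^ (M + 1) * R⁻¹ := by positivity
  rw [← norm_mul]
  refine PhragmenLindelof.vertical_strip (f := fun σ => g σ * mult N (M + 1) l σ) (a := 0) (b := R)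
    ?_ ?_ ?_ ?_ (by simp) (by simpa using hR)
  · apply DifferentiableOn.diffContOnCl
    refine (hg.differentiableOn.mul (mult_diff N (M + 1) hl)).mono ?_
    rw [Complex.closure_preimage_re, closure_Ioo hR0.ne]
    intro σ hσ
    exact hσ.1
  · refine ⟨0, by positivity, 0, ?_⟩
    refine Asymptotics.IsBigO.of_bound (b * Real.exp (((M + 1 : ℕ) : ℝ) * R) * l ^ (M + 1)) ?_
    refine Filter.Eventually.filter_mono inf_le_right ?_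
    rw [Filter.eventually_principal]
    intro σ hσ
    have hσ0 : 0 ≤ σ.re := hσ.1.le
    have e1 := mult_le_b N M hl hσ0
    have e2 : ‖1 + σ‖⁻¹ ≤ 1 := inv_le_one_of_one_le₀ (norm_one_add_ge hσ0).1
    have e3 : Real.exp (((M + 1 : ℕ) : ℝ) * σ.re) ≤ Real.exp (((M + 1 : ℕ) : ℝ) * R) := by
      gcongr
      exact hσ.2.le
    rw [norm_mul]
    simp only [zero_mul, Real.exp_zero, norm_one, mul_one]
    calc _ ≤ b * Real.exp (((M + 1 : ℕ) : ℝ) * σ.re) * ‖1 + σ‖ ^ M * ‖mult N (M + 1) l σ‖ := by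
          gcongr; exact h2 σ hσ0
      _ = b * Real.exp (((M + 1 : ℕ) : ℝ) * σ.re) * (‖1 + σ‖ ^ M * ‖mult N (M + 1) l σ‖) := by
          ring
      _ ≤ b * Real.exp (((M + 1 : ℕ) : ℝ) * R) * (l ^ (M + 1) * 1) :=
          mul_le_mul (by gcongr) (e1.trans (by gcongr)) (by positivity) (by positivity)
      _ = _ := by ring
  · intro σ hσ
    have hσ0 : 0 ≤ σ.re := hσ.ge
    rw [norm_mul]
    by_cases hs : ‖σ‖ ≤ T
    · have e1 := mult_le_a N (M + 1) hl hσ0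
      calc _ ≤ a * ‖1 + σ‖ ^ N * ‖mult N (M + 1) l σ‖ := by gcongr; exact h1 σ hσ hs
        _ = a * (‖1 + σ‖ ^ N * ‖mult N (M + 1) l σ‖) := by ring
        _ ≤ a * 1 := by gcongr
        _ ≤ _ := by linarith
    · have e1 := mult_le_b N M hl hσ0
      have e2 : ‖1 + σ‖⁻¹ ≤ T⁻¹ := by
        apply inv_anti₀ hT
        have := (norm_one_add_ge hσ0).2
        linarith
      have e3 := h2 σ hσ0
      rw [hσ, mul_zero, Real.exp_zero, mul_one] at e3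
      calc _ ≤ b * ‖1 + σ‖ ^ M * ‖mult N (M + 1) l σ‖ := by gcongr
        _ = b * (‖1 + σ‖ ^ M * ‖mult N (M + 1) l σ‖) := by ring
        _ ≤ b * (l ^ (M + 1) * T⁻¹) := mul_le_mul_of_nonneg_left (e1.trans (by gcongr)) hb
        _ ≤ _ := by nlinarith
  · intro σ hσ
    have hσ0 : 0 ≤ σ.re := by rw [hσ]; exact hR0.le
    rw [norm_mul]
    have e1 := mult_le_c N M hl hσ0
    have e2 : ‖1 + σ‖⁻¹ ≤ R⁻¹ := by
      apply inv_anti₀ hR0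
      have := Complex.re_le_norm (1 + σ)
      simp only [add_re, one_re] at this
      linarith
    calc _ ≤ c * (Real.exp (((N + 1 : ℕ) : ℝ) * σ.re) * ‖1 + σ‖ ^ N) * ‖mult N (M + 1) l σ‖ := by
          gcongr; exact h3 σ hσ
      _ = c * (Real.exp (((N + 1 : ℕ) : ℝ) * σ.re) * ‖1 + σ‖ ^ N * ‖mult N (M + 1) l σ‖) := by
          ring
      _ ≤ c * (l ^ (M + 1) * R⁻¹) := mul_le_mul_of_nonneg_left (e1.trans (by gcongr)) hc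
      _ ≤ _ := by nlinarith

/-- Lower bound for the multiplier at the point 2, uniform in the degree. -/
theorem mult_two (N M : ℕ) :
    Real.exp (-((N + 1 : ℕ) : ℝ) * 2) * (3⁻¹) ^ N * Real.exp (-1) ≤
      ‖mult N (M + 1) (2 * (M + 1)) 2‖ := by
  have hM : (0 : ℝ) ≤ M := Nat.cast_nonneg M
  rw [norm_mult N (M + 1) (by linarith)]
  have e1 : ‖(1 : ℂ) + 2‖ = 3 := by
    rw [show (1 : ℂ) + 2 = ((3 : ℝ) : ℂ) by push_cast; norm_num, Complex.norm_real]; norm_num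
  have e2 : ‖(((2 * ((M : ℝ) + 1)) : ℝ) : ℂ) + 2‖ = 2 * ((M : ℝ) + 1) + 2 := by
    rw [show (((2 * ((M : ℝ) + 1)) : ℝ) : ℂ) + 2 = (((2 * ((M : ℝ) + 1) + 2) : ℝ) : ℂ) by
      push_cast; ring, Complex.norm_real, Real.norm_eq_abs, abs_of_nonneg (by positivity)]
  rw [e1, e2]
  have e3 : Real.exp (-1) ≤ (2 * ((M : ℝ) + 1) * (2 * ((M : ℝ) + 1) + 2)⁻¹) ^ (M + 1) := by
    have a1 : Real.exp (-1) = (Real.exp (-(1 / ((M : ℝ) + 1)))) ^ (M + 1) := by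
      rw [← Real.exp_nat_mul]
      congr 1
      push_cast
      field_simp
    rw [a1]
    gcongr
    have a2 := Real.add_one_le_exp (1 / ((M : ℝ) + 1))
    rw [Real.exp_neg]
    have a3 : 2 * ((M : ℝ) + 1) * (2 * ((M : ℝ) + 1) + 2)⁻¹ = (1 / ((M : ℝ) + 1) + 1)⁻¹ := by
      field_simp
      ring
    rw [a3]
    exact inv_anti₀ (by positivity) a2
  have e4 : (2 : ℂ).re = 2 := by simp
  rw [e4]
  gcongr

end Pool.Agent.H396Z.Ferrier
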