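import Pool.Agent.H396Z.Ferrier.Defs
import Pool.Agent.H396Z.Ferrier.PL

set_option autoImplicit false

namespace Pool.Agent.H396Z.Ferrier

open Filter Topology

variable {n : ℕ}

theorem mem_O {δ : Weight n} {u : EuclideanSpace ℂ (Fin n) → ℂ} : u ∈ O δ ↔
    DifferentiableOn ℂ u (S δ) ∧ (∀ z, z ∉ S δ → u z = 0) ∧
    ∃ N : ℕ, ∃ C : ℝ, ∀ z ∈ S δ, δ.toFun z ^ N * ‖u z‖ ≤ C := Iff.rfl

theorem isOpen_S (δ : Weight n) : IsOpen (S δ) := isOpen_lt continuous_const δ.cont

theorem closure_of_approx (δ : Weight n) (A : Set (O δ)) (u : O δ) (N : ℕ)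
    (h : ∀ ε : ℝ, 0 < ε → ∃ v ∈ @closure _ (indTop δ) A,
      ∀ z ∈ S δ, δ.toFun z ^ N * ‖v.1 z - u.1 z‖ ≤ ε) :
    u ∈ @closure _ (indTop δ) A := by
  choose v hv hvu using fun k : ℕ => h (1 / ((k : ℝ) + 1)) (by positivity)
  have ht : Tendsto v atTop (@nhds _ (indTop δ) u) := by
    unfold indTop
    rw [nhds_sInf]
    simp only [tendsto_iInf]
    rintro t ⟨hg, -, -, hb⟩ U hU
    have hc : Tendsto (fun w : O δ => w + u) (@nhds _ t 0) (@nhds _ t u) := by
      let _ := t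
      have := (continuous_add_const u).tendsto 0
      rwa [zero_add] at this
    obtain ⟨ε, hε, hball⟩ := hb N _ (hc hU)
    have := (tendsto_one_div_add_atTop_nhds_zero_nat (𝕜 := ℝ)).eventually (ge_mem_nhds hε)
    rw [Filter.mem_map]
    filter_upwards [this] with k hk
    have h1 := hball (v k - u) fun z hz => (hvu k z hz).trans hk
    simpa using h1
  let _ := indTop δ
  exact isClosed_closure.mem_of_tendsto ht (Eventually.of_forall hv)

theorem mul_mem_O {δ : Weight n} {u v : EuclideanSpace ℂ (Fin n) → ℂ} (hu : u ∈ O δ)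
    (hv : v ∈ O δ) : u * v ∈ O δ := by
  obtain ⟨hu, hu0, N, C, hC⟩ := hu
  obtain ⟨hv, hv0, N', C', hC'⟩ := hv
  refine ⟨hu.mul hv, fun z hz => by simp [hu0 z hz], N + N', C * C', fun z hz => ?_⟩
  have h0 := δ.nonneg z
  have h2 := hC z hz
  have h3 := hC' z hz
  have h4 : 0 ≤ C := le_trans (by positivity) h2
  calc δ.toFun z ^ (N + N') * ‖(u * v) z‖
      = (δ.toFun z ^ N * ‖u z‖) * (δ.toFun z ^ N' * ‖v z‖) := by
        rw [Pi.mul_apply, norm_mul]; ring
    _ ≤ C * C' := by gcongr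

theorem res_mem_O {δ δ' : Weight n} (hle : ∀ z, δ'.toFun z ≤ δ.toFun z)
    {f : EuclideanSpace ℂ (Fin n) → ℂ} (hf : f ∈ O δ) : (S δ').indicator f ∈ O δ' := by
  obtain ⟨hf, -, N, C, hC⟩ := hf
  have hsub : S δ' ⊆ S δ := fun z hz => lt_of_lt_of_le hz (hle z)
  refine ⟨(hf.mono hsub).congr fun z hz => Set.indicator_of_mem hz _,
    fun z hz => Set.indicator_of_notMem hz _, N, C, fun z hz => ?_⟩
  rw [Set.indicator_of_mem hz]
  refine le_trans ?_ (hC z (hsub hz))
  have := δ'.nonneg z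
  have := hle z
  gcongr

theorem lip_exp_neg {α : Type} [PseudoMetricSpace α] {a : α → ℝ} {K : NNReal}
    (ha : LipschitzWith K a) (h0 : ∀ z, 0 ≤ a z) :
    LipschitzWith K fun z => Real.exp (-a z) := by
  have key : ∀ x y : ℝ, 0 ≤ x → x ≤ y → Real.exp (-x) - Real.exp (-y) ≤ y - x := by
    intro x y hx hxy
    have h1 : Real.exp (-y) = Real.exp (-x) * Real.exp (-(y - x)) := by
      rw [← Real.exp_add]; congr 1; ring
    have h2 := Real.add_one_le_exp (-(y - x))
    have h3 : Real.exp (-x) ≤ 1 := Real.exp_le_one_iff.2 (by linarith)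
    have h4 := Real.exp_pos (-x)
    rw [h1]
    nlinarith
  refine LipschitzWith.of_le_add_mul K fun z w => ?_
  have h1 := ha.dist_le_mul z w
  rw [Real.dist_eq, abs_le] at h1
  rcases le_total (a z) (a w) with h | h
  · have := key _ _ (h0 z) h
    linarith [h1.1]
  · have : Real.exp (-a z) ≤ Real.exp (-a w) := Real.exp_le_exp.2 (by linarith)
    have h2 : 0 ≤ (K : ℝ) * dist z w := by positivity
    linarith

theorem lip_inv_norm {α : Type} [SeminormedAddCommGroup α] :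
    LipschitzWith 1 fun z : α => (1 + ‖z‖)⁻¹ := by
  refine LipschitzWith.of_le_add fun z w => ?_
  have h1 := norm_nonneg z
  have h2 := norm_nonneg w
  have h3 : ‖w‖ ≤ ‖z‖ + dist z w := by
    rw [dist_comm, dist_eq_norm]
    have := norm_add_le z (w - z)
    simpa using this
  have h4 : 0 ≤ dist z w := dist_nonneg
  rw [inv_eq_one_div, inv_eq_one_div, div_add' _ _ _ (by positivity),
    div_le_div_iff₀ (by positivity) (by positivity)]
  have : 0 ≤ dist z w * ‖w‖ := by positivity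
  have : 0 ≤ dist z w * ‖z‖ := by positivity
  have : 0 ≤ dist z w * ‖w‖ * ‖z‖ := by positivity
  nlinarith

theorem lip_coord (i : Fin n) : LipschitzWith 1 fun z : EuclideanSpace ℂ (Fin n) => z i := by
  refine LipschitzWith.of_dist_le_mul fun z w => ?_
  rw [dist_eq_norm, dist_eq_norm]
  simpa using PiLp.norm_apply_le (z - w) i

theorem lip_re (i : Fin n) : LipschitzWith 1 fun z : EuclideanSpace ℂ (Fin n) => (z i).re := by
  refine LipschitzWith.of_dist_le_mul fun z w => ?_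
  have h := (lip_coord i).dist_le_mul z w
  rw [dist_eq_norm] at h
  rw [Real.dist_eq, ← Complex.sub_re]
  exact (Complex.abs_re_le_norm _).trans h

theorem lip_nrm (i : Fin n) : LipschitzWith 1 fun z : EuclideanSpace ℂ (Fin n) => ‖z i‖ := by
  have := lipschitzWith_one_norm.comp (lip_coord i)
  rw [mul_one] at this
  exact this

theorem diff_coord (i : Fin n) :
    Differentiable ℂ fun z : EuclideanSpace ℂ (Fin n) => z i :=
  (EuclideanSpace.proj i : EuclideanSpace ℂ (Fin n) →L[ℂ] ℂ).differentiable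

/-- A polynomial with attracting fixed points `0` and `1`. -/
def sepP (y : ℂ) : ℂ := 3 * (y * y) - 2 * (y * y * y)

theorem sepP_le {y : ℂ} {r : ℝ} (h : ‖y‖ ≤ r) (hr : r ≤ 1 / 4) : ‖sepP y‖ ≤ 7 / 8 * r := by
  have h0 := norm_nonneg y
  have h1 : ‖sepP y‖ ≤ 3 * (‖y‖ * ‖y‖) + 2 * (‖y‖ * ‖y‖ * ‖y‖) := by
    unfold sepP
    refine (norm_sub_le _ _).trans ?_
    simp
  have h2 : ‖y‖ * ‖y‖ ≤ 1 / 4 * r := by nlinarith
  have h3 : ‖y‖ * ‖y‖ * ‖y‖ ≤ 1 / 4 * r * (1 / 4) := by
    apply mul_le_mul h2 (by linarith) h0 (by linarith)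
  linarith

theorem sepP_iter {y : ℂ} (h : ‖y‖ ≤ 1 / 4) (m : ℕ) : ‖sepP^[m] y‖ ≤ (7 / 8) ^ m * (1 / 4) := by
  induction m with
  | zero => simpa using h
  | succ m ih =>
    rw [Function.iterate_succ_apply', pow_succ]
    have h1 : (7 / 8 : ℝ) ^ m ≤ 1 := pow_le_one₀ (by norm_num) (by norm_num)
    have := sepP_le ih (by linarith)
    linarith

theorem sepP_symm (y : ℂ) (m : ℕ) : 1 - sepP^[m] y = sepP^[m] (1 - y) := by
  induction m with
  | zero => rfl
  | succ m ih =>
    rw [Function.iterate_succ_apply', Function.iterate_succ_apply', ← ih]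
    unfold sepP; ring

end Pool.Agent.H396Z.Ferrier
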