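import Mathlib

set_option autoImplicit false

namespace Pool.Agent.H396Z.Ferrier

open Filter Topology

/-- A weight on `ℂⁿ`: continuous, nonnegative, tending to `0` at infinity. -/
structure Weight (n : ℕ) where
  /-- The underlying function. -/
  toFun : EuclideanSpace ℂ (Fin n) → ℝ
  cont : Continuous toFun
  nonneg : ∀ z, 0 ≤ toFun z
  tends : Tendsto toFun (cocompact (EuclideanSpace ℂ (Fin n))) (𝓝 0)

/-- The open set `S_δ` where the weight is positive. -/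
def S {n : ℕ} (δ : Weight n) : Set (EuclideanSpace ℂ (Fin n)) := {z | 0 < δ.toFun z}

theorem Weight.bdd {n : ℕ} (δ : Weight n) : ∃ B : ℝ, ∀ z, δ.toFun z ≤ B := by
  obtain ⟨B, hB⟩ := (δ.tends.isCompact_insert_range_of_cocompact δ.cont).bddAbove
  exact ⟨B, fun z => hB (Set.mem_insert_of_mem _ ⟨z, rfl⟩)⟩

/-- The space `O(δ)`: holomorphic functions `u` on `S_δ` (extended by `0` outside `S_δ`) such that
`δ ^ N * |u|` is bounded on `S_δ` for some `N`. -/
def O {n : ℕ} (δ : Weight n) : Submodule ℂ (EuclideanSpace ℂ (Fin n) → ℂ) where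
  carrier := {u | DifferentiableOn ℂ u (S δ) ∧ (∀ z, z ∉ S δ → u z = 0) ∧
    ∃ N : ℕ, ∃ C : ℝ, ∀ z ∈ S δ, δ.toFun z ^ N * ‖u z‖ ≤ C}
  zero_mem' := ⟨differentiableOn_const 0, fun _ _ => rfl, 0, 0, fun _ _ => by simp⟩
  add_mem' := by
    rintro u v ⟨hu, hu0, N, C, hC⟩ ⟨hv, hv0, N', C', hC'⟩
    obtain ⟨B, hB⟩ := δ.bdd
    refine ⟨hu.add hv, fun z hz => by simp [hu0 z hz, hv0 z hz], N + N',
      B ^ N' * C + B ^ N * C', fun z hz => ?_⟩
    have h0 := δ.nonneg z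
    have h1 := hB z
    calc δ.toFun z ^ (N + N') * ‖(u + v) z‖ ≤ δ.toFun z ^ (N + N') * (‖u z‖ + ‖v z‖) := by
          gcongr; exact norm_add_le _ _
      _ = δ.toFun z ^ N' * (δ.toFun z ^ N * ‖u z‖) + δ.toFun z ^ N * (δ.toFun z ^ N' * ‖v z‖) := by
          ring
      _ ≤ B ^ N' * C + B ^ N * C' := by
          have h2 := hC z hz
          have h3 := hC' z hz
          have h4 : 0 ≤ B := h0.trans h1
          gcongr
  smul_mem' := by
    rintro c u ⟨hu, hu0, N, C, hC⟩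
    refine ⟨hu.const_smul c, fun z hz => by simp [hu0 z hz], N, ‖c‖ * C, fun z hz => ?_⟩
    have h2 := hC z hz
    calc δ.toFun z ^ N * ‖(c • u) z‖ = ‖c‖ * (δ.toFun z ^ N * ‖u z‖) := by
          rw [Pi.smul_apply, norm_smul]; ring
      _ ≤ ‖c‖ * C := by gcongr

/-- The locally convex inductive limit topology of the steps `E_N(δ)`: the finest locally convex
vector space topology on `O(δ)` for which every inclusion of `E_N(δ)` is continuous, that is,
every neighbourhood of `0` contains a ball of each norm `sup δ ^ N * |v|`. -/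
def indTop {n : ℕ} (δ : Weight n) : TopologicalSpace (O δ) :=
  sInf {t : TopologicalSpace (O δ) |
    @IsTopologicalAddGroup (O δ) t _ ∧ @ContinuousSMul ℂ (O δ) _ _ t ∧
    @LocallyConvexSpace ℝ (O δ) _ _ _ _ t ∧
    ∀ N : ℕ, ∀ U ∈ @nhds (O δ) t 0, ∃ ε : ℝ, 0 < ε ∧
      ∀ v : O δ, (∀ z ∈ S δ, δ.toFun z ^ N * ‖v.1 z‖ ≤ ε) → v ∈ U}

/-- The image `R` of the restriction map from `O(δ)` to `O(δ')`. -/
def R {n : ℕ} (δ δ' : Weight n) : Set (O δ') :=
  {v | ∃ f : O δ, ∀ z ∈ S δ', v.1 z = f.1 z}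

/-- The set `L` of bornological limits in `O(δ')` of sequences in `R`. -/
def L {n : ℕ} (δ δ' : Weight n) : Set (O δ') :=
  {u | ∃ N : ℕ, ∃ v : ℕ → O δ', (∀ k, v k ∈ R δ δ') ∧
    ∀ ε : ℝ, 0 < ε → ∀ᶠ k in atTop, ∀ z ∈ S δ', δ'.toFun z ^ N * ‖(v k).1 z - u.1 z‖ ≤ ε}

end Pool.Agent.H396Z.Ferrier
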