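import Pool.Agent.H396Z.Ferrier.Basic

set_option autoImplicit false

namespace Pool.Agent.H396Z.Ferrier

open Filter Topology

variable {n : ℕ} (i j : Fin n)

/-- Exponent of the big weight. -/
def aa (z : EuclideanSpace ℂ (Fin n)) : ℝ := max (z i).re (max (-(z j).re) 0)

/-- The big weight. -/
noncomputable def d0 (z : EuclideanSpace ℂ (Fin n)) : ℝ :=
  min (Real.exp (-aa i j z)) (1 + ‖z‖)⁻¹

/-- The cut-off. -/
noncomputable def psi (z : EuclideanSpace ℂ (Fin n)) : ℝ :=
  max (max (min (1 - (z i).re) (1 / 10 - ‖z j‖)) ((z j).re - 2)) 0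

/-- The small weight. -/
noncomputable def d1 (z : EuclideanSpace ℂ (Fin n)) : ℝ := min (d0 i j z) (psi i j z)

theorem aa_nonneg (z : EuclideanSpace ℂ (Fin n)) : 0 ≤ aa i j z :=
  le_max_of_le_right (le_max_right _ _)

theorem d0_pos (z : EuclideanSpace ℂ (Fin n)) : 0 < d0 i j z :=
  lt_min (Real.exp_pos _) (by positivity)

theorem d0_le_one (z : EuclideanSpace ℂ (Fin n)) : d0 i j z ≤ 1 :=
  (min_le_left _ _).trans (Real.exp_le_one_iff.2 (by linarith [aa_nonneg i j z]))

theorem d1_nonneg (z : EuclideanSpace ℂ (Fin n)) : 0 ≤ d1 i j z :=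
  le_min (d0_pos i j z).le (le_max_right _ _)

theorem d1_le (z : EuclideanSpace ℂ (Fin n)) : d1 i j z ≤ d0 i j z := min_le_left _ _

theorem lip_d0 : ∃ K, LipschitzWith K (d0 i j) :=
  ⟨_, (lip_exp_neg ((lip_re i).max ((lip_re j).neg.max_const 0)) (aa_nonneg i j)).min
    lip_inv_norm⟩

theorem lip_d1 : ∃ K, LipschitzWith K (d1 i j) := by
  obtain ⟨K, hK⟩ := lip_d0 i j
  exact ⟨_, hK.min ((((((LipschitzWith.const (1 : ℝ)).sub (lip_re i)).min
    ((LipschitzWith.const (1 / 10 : ℝ)).sub (lip_nrm j))).max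
    ((lip_re j).sub (LipschitzWith.const (2 : ℝ)))).max_const 0))⟩

theorem tends_d0 : Tendsto (d0 i j) (cocompact (EuclideanSpace ℂ (Fin n))) (𝓝 0) := by
  have h : Tendsto (fun z : EuclideanSpace ℂ (Fin n) => (1 + ‖z‖)⁻¹)
      (cocompact (EuclideanSpace ℂ (Fin n))) (𝓝 0) := by
    apply Tendsto.inv_tendsto_atTop
    exact tendsto_atTop_add_const_left _ _ tendsto_norm_cocompact_atTop
  exact squeeze_zero (fun z => (d0_pos i j z).le) (fun z => min_le_right _ _) h

/-- The big weight, bundled. -/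
noncomputable def w0 : Weight n :=
  ⟨d0 i j, (lip_d0 i j).choose_spec.continuous, fun z => (d0_pos i j z).le, tends_d0 i j⟩

/-- The small weight, bundled. -/
noncomputable def w1 : Weight n :=
  ⟨d1 i j, (lip_d1 i j).choose_spec.continuous, d1_nonneg i j,
    squeeze_zero (d1_nonneg i j) (d1_le i j) (tends_d0 i j)⟩

/-- The first component. -/
def VV : Set (EuclideanSpace ℂ (Fin n)) := {z | (z i).re < 1 ∧ ‖z j‖ < 1 / 10}

theorem isOpen_VV : IsOpen (VV i j) :=
  (isOpen_lt (lip_re i).continuous continuous_const).inter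
    (isOpen_lt (lip_nrm j).continuous continuous_const)

theorem mem_S0 (z : EuclideanSpace ℂ (Fin n)) : z ∈ S (w0 i j) := d0_pos i j z

theorem mem_S1 {z : EuclideanSpace ℂ (Fin n)} :
    z ∈ S (w1 i j) ↔ z ∈ VV i j ∨ 2 < (z j).re := by
  show 0 < min (d0 i j z) (psi i j z) ↔ ((z i).re < 1 ∧ ‖z j‖ < 1 / 10) ∨ 2 < (z j).re
  rw [lt_min_iff, and_iff_right (d0_pos i j z)]
  unfold psi
  simp only [lt_max_iff, lt_min_iff, lt_self_iff_false, or_false, sub_pos]

theorem not_VV {z : EuclideanSpace ℂ (Fin n)} (h : 2 < (z j).re) : z ∉ VV i j := by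
  intro hz
  have := Complex.re_le_norm (z j)
  linarith [hz.2]

theorem cut_mem {g : EuclideanSpace ℂ (Fin n) → ℂ} (hg : DifferentiableOn ℂ g (VV i j)) {C : ℝ}
    (hC : ∀ z ∈ VV i j, ‖g z‖ ≤ C) : (VV i j).indicator g ∈ O (w1 i j) := by
  refine ⟨fun z hz => ?_, fun z hz => Set.indicator_of_notMem
    (fun h => hz ((mem_S1 i j).2 (Or.inl h))) _, 0, max C 0, fun z _ => ?_⟩
  · apply DifferentiableAt.differentiableWithinAt
    rcases (mem_S1 i j).1 hz with h | h
    · have h1 := (isOpen_VV i j).mem_nhds h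
      refine (hg.differentiableAt h1).congr_of_eventuallyEq ?_
      filter_upwards [h1] with w hw
      exact Set.indicator_of_mem hw _
    · have h1 := (isOpen_lt continuous_const (lip_re j).continuous).mem_nhds h
      refine (differentiableAt_const (0 : ℂ)).congr_of_eventuallyEq ?_
      filter_upwards [h1] with w hw
      exact Set.indicator_of_notMem (not_VV i j hw) _
  · rw [pow_zero, one_mul]
    by_cases h : z ∈ VV i j
    · rw [Set.indicator_of_mem h]; exact (hC z h).trans (le_max_left _ _)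
    · rw [Set.indicator_of_notMem h, norm_zero]; exact le_max_right _ _

theorem mem_O0 {f : EuclideanSpace ℂ (Fin n) → ℂ} (hf : Differentiable ℂ f) (N : ℕ) (C : ℝ)
    (h : ∀ z, d0 i j z ^ N * ‖f z‖ ≤ C) : f ∈ O (w0 i j) :=
  ⟨hf.differentiableOn, fun z hz => absurd (mem_S0 i j z) hz, N, C, fun z _ => h z⟩

/-- The basic exponential. -/
noncomputable def ee (z : EuclideanSpace ℂ (Fin n)) : ℂ := Complex.exp (z i - 2)

theorem norm_ee (z : EuclideanSpace ℂ (Fin n)) : ‖ee i z‖ = Real.exp ((z i).re - 2) := by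
  unfold ee; rw [Complex.norm_exp]; simp

theorem diff_ee : Differentiable ℂ (ee (n := n) i) :=
  ((diff_coord i).sub_const 2).cexp

theorem d0_ee (z : EuclideanSpace ℂ (Fin n)) : d0 i j z * ‖ee i z‖ ≤ 1 := by
  rw [norm_ee]
  calc _ ≤ Real.exp (-aa i j z) * Real.exp ((z i).re - 2) := by
        gcongr; exact min_le_left _ _
    _ ≤ 1 := by
        rw [← Real.exp_add, Real.exp_le_one_iff]
        have : (z i).re ≤ aa i j z := le_max_left _ _
        linarith

theorem ee_half {z : EuclideanSpace ℂ (Fin n)} (hz : z ∈ VV i j) : ‖ee i z‖ ≤ 1 / 2 := by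
  rw [norm_ee]
  have h1 := Real.add_one_le_exp 1
  calc Real.exp ((z i).re - 2) ≤ Real.exp (-1) := Real.exp_le_exp.2 (by linarith [hz.1])
    _ ≤ 1 / 2 := by
      rw [Real.exp_neg, one_div]
      exact inv_anti₀ (by norm_num) (by linarith)

/-- Geometric sums of the basic exponential. -/
noncomputable def GG (J : ℕ) (z : EuclideanSpace ℂ (Fin n)) : ℂ :=
  ∑ k ∈ Finset.range J, ee i z ^ k

theorem diff_GG (J : ℕ) : Differentiable ℂ (GG (n := n) i J) := by
  unfold GG
  exact Differentiable.fun_sum fun k _ => (diff_ee i).pow k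

theorem d0_GG (J : ℕ) (z : EuclideanSpace ℂ (Fin n)) : d0 i j z ^ J * ‖GG i J z‖ ≤ J := by
  have h0 := (d0_pos i j z).le
  calc _ ≤ d0 i j z ^ J * ∑ k ∈ Finset.range J, ‖ee i z ^ k‖ := by
        gcongr; exact norm_sum_le _ _
    _ = ∑ k ∈ Finset.range J, d0 i j z ^ J * ‖ee i z ^ k‖ := Finset.mul_sum _ _ _
    _ ≤ ∑ _k ∈ Finset.range J, (1 : ℝ) := by
        refine Finset.sum_le_sum fun k hk => ?_
        have h1 : d0 i j z ^ J ≤ d0 i j z ^ k :=
          pow_le_pow_of_le_one h0 (d0_le_one i j z) (Finset.mem_range.1 hk).le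
        calc _ ≤ d0 i j z ^ k * ‖ee i z ^ k‖ := by gcongr
          _ = (d0 i j z * ‖ee i z‖) ^ k := by rw [norm_pow, mul_pow]
          _ ≤ 1 := pow_le_one₀ (by positivity) (d0_ee i j z)
    _ = J := by simp

/-- The separating functions. -/
noncomputable def QQ (m : ℕ) (z : EuclideanSpace ℂ (Fin n)) : ℂ :=
  sepP^[m] (Complex.exp (-(z j)))

theorem QQ_mem (m : ℕ) : QQ j m ∈ O (w0 i j) := by
  induction m with
  | zero =>
    refine mem_O0 i j (diff_coord j).neg.cexp 1 1 fun z => ?_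
    show d0 i j z ^ 1 * ‖Complex.exp (-(z j))‖ ≤ 1
    rw [pow_one, Complex.norm_exp]
    calc _ ≤ Real.exp (-aa i j z) * Real.exp ((-(z j)).re) := by
          gcongr; exact min_le_left _ _
      _ ≤ 1 := by
          rw [← Real.exp_add, Real.exp_le_one_iff, Complex.neg_re]
          have : -(z j).re ≤ aa i j z := le_max_of_le_right (le_max_left _ _)
          linarith
  | succ m ih =>
    have : QQ j (m + 1) = (3 : ℂ) • (QQ j m * QQ j m) - (2 : ℂ) • (QQ j m * QQ j m * QQ j m) := by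
      funext z
      simp only [QQ, Function.iterate_succ_apply', Pi.sub_apply, Pi.smul_apply, Pi.mul_apply,
        smul_eq_mul]
      rfl
    rw [this]
    exact Submodule.sub_mem _ (Submodule.smul_mem _ _ (mul_mem_O ih ih))
      (Submodule.smul_mem _ _ (mul_mem_O (mul_mem_O ih ih) ih))

theorem QQ_V (m : ℕ) {z : EuclideanSpace ℂ (Fin n)} (hz : z ∈ VV i j) :
    ‖1 - QQ j m z‖ ≤ (7 / 8) ^ m * (1 / 4) := by
  unfold QQ
  rw [sepP_symm]
  apply sepP_iter
  rw [norm_sub_rev]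
  have h1 : ‖-(z j)‖ < 1 / 10 := by rw [norm_neg]; exact hz.2
  have := Complex.norm_exp_sub_one_le (x := -(z j)) (by linarith)
  linarith

theorem QQ_A (m : ℕ) {z : EuclideanSpace ℂ (Fin n)} (hz : 2 < (z j).re) :
    ‖QQ j m z‖ ≤ (7 / 8) ^ m * (1 / 4) := by
  apply sepP_iter
  rw [Complex.norm_exp, Complex.neg_re]
  have h1 := Real.add_one_le_exp 1
  have h2 : Real.exp 2 = Real.exp 1 * Real.exp 1 := by rw [← Real.exp_add]; norm_num
  calc Real.exp (-(z j).re) ≤ Real.exp (-2) := Real.exp_le_exp.2 (by linarith)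
    _ ≤ 1 / 4 := by
      rw [Real.exp_neg, one_div]
      exact inv_anti₀ (by norm_num) (by nlinarith)

theorem one_sub_ee {z : EuclideanSpace ℂ (Fin n)} (hz : z ∈ VV i j) : 1 / 2 ≤ ‖1 - ee i z‖ := by
  have h1 := ee_half i j hz
  have h2 := norm_sub_norm_le (1 : ℂ) (ee i z)
  rw [norm_one] at h2
  linarith

theorem one_sub_ee_ne {z : EuclideanSpace ℂ (Fin n)} (hz : z ∈ VV i j) : 1 - ee i z ≠ 0 := by
  intro h
  have := one_sub_ee i j hz
  rw [h, norm_zero] at this
  linarith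

theorem norm_inv_le {z : EuclideanSpace ℂ (Fin n)} (hz : z ∈ VV i j) : ‖(1 - ee i z)⁻¹‖ ≤ 2 := by
  rw [norm_inv]
  exact (inv_anti₀ (by norm_num) (one_sub_ee i j hz)).trans (by norm_num)

/-- The function in the closure that is not a bornological limit. -/
noncomputable def uu : O (w1 i j) :=
  ⟨(VV i j).indicator fun z => (1 - ee i z)⁻¹,
    cut_mem i j (((diff_ee i).const_sub 1).differentiableOn.inv fun _ hz => one_sub_ee_ne i j hz)
      fun _ hz => norm_inv_le i j hz⟩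

theorem GG_sub {z : EuclideanSpace ℂ (Fin n)} (hz : z ∈ VV i j) (J : ℕ) :
    ‖GG i J z - (1 - ee i z)⁻¹‖ ≤ (1 / 2) ^ J * 2 := by
  have h0 := one_sub_ee_ne i j hz
  have h1 : GG i J z - (1 - ee i z)⁻¹ = -(ee i z ^ J * (1 - ee i z)⁻¹) := by
    have := mul_neg_geom_sum (ee i z) J
    unfold GG
    field_simp
    linear_combination this
  rw [h1, norm_neg, norm_mul, norm_pow]
  have h2 := ee_half i j hz
  have h3 := norm_inv_le i j hz
  gcongr

/-- The intermediate functions. -/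
noncomputable def uJ (J : ℕ) : O (w1 i j) :=
  ⟨(VV i j).indicator (GG i J), cut_mem i j (diff_GG i J).differentiableOn (C := 4) fun z hz => by
    have h1 := GG_sub i j hz J
    have h2 := norm_inv_le i j hz
    have h3 : (1 / 2 : ℝ) ^ J ≤ 1 := pow_le_one₀ (by norm_num) (by norm_num)
    have h4 := norm_sub_norm_le (GG i J z) (1 - ee i z)⁻¹
    linarith⟩

theorem uJ_mem (J : ℕ) : uJ i j J ∈ @closure _ (indTop (w1 i j)) (R (w0 i j) (w1 i j)) := by
  apply closure_of_approx _ _ _ J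
  intro ε hε
  obtain ⟨m, hm⟩ := exists_pow_lt_of_lt_one (show 0 < ε / (J + 1) by positivity)
    (show (7 / 8 : ℝ) < 1 by norm_num)
  have hmem : GG i J * QQ j m ∈ O (w0 i j) :=
    mul_mem_O (mem_O0 i j (diff_GG i J) J J (d0_GG i j J)) (QQ_mem i j m)
  refine ⟨⟨_, res_mem_O (δ := w0 i j) (δ' := w1 i j) (d1_le i j) hmem⟩,
    @subset_closure _ (indTop (w1 i j)) _ _ ⟨⟨_, hmem⟩, fun z hz => Set.indicator_of_mem hz _⟩,
    fun z hz => ?_⟩
  show d1 i j z ^ J * ‖(S (w1 i j)).indicator (GG i J * QQ j m) z -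
    (VV i j).indicator (GG i J) z‖ ≤ ε
  rw [Set.indicator_of_mem hz, Pi.mul_apply]
  have h1 : ‖GG i J z * QQ j m z - (VV i j).indicator (GG i J) z‖ ≤
      ‖GG i J z‖ * ((7 / 8) ^ m * (1 / 4)) := by
    rcases (mem_S1 i j).1 hz with h | h
    · rw [Set.indicator_of_mem h, ← mul_sub_one, norm_mul, norm_sub_rev]
      have := QQ_V i j m h
      gcongr
    · rw [Set.indicator_of_notMem (not_VV i j h), sub_zero, norm_mul]
      have := QQ_A j m h
      gcongr
  have h2 := d0_GG i j J z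
  have h3 := d1_nonneg i j z
  have h4 := d1_le i j z
  have h5 : (0 : ℝ) ≤ J := Nat.cast_nonneg J
  rw [lt_div_iff₀ (by positivity)] at hm
  have h6 : (0 : ℝ) ≤ (7 / 8) ^ m := by positivity
  have h7 := (d0_pos i j z).le
  calc _ ≤ d0 i j z ^ J * (‖GG i J z‖ * ((7 / 8) ^ m * (1 / 4))) := by gcongr
    _ = (d0 i j z ^ J * ‖GG i J z‖) * ((7 / 8) ^ m * (1 / 4)) := by ring
    _ ≤ J * ((7 / 8) ^ m * (1 / 4)) := by gcongr
    _ ≤ ε := by nlinarith

theorem uu_mem : uu i j ∈ @closure _ (indTop (w1 i j)) (R (w0 i j) (w1 i j)) := by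
  apply closure_of_approx _ _ _ 0
  intro ε hε
  obtain ⟨J, hJ⟩ := exists_pow_lt_of_lt_one (show 0 < ε / 2 by positivity)
    (show (1 / 2 : ℝ) < 1 by norm_num)
  refine ⟨uJ i j J, uJ_mem i j J, fun z _ => ?_⟩
  show _ * ‖(VV i j).indicator (GG i J) z - (VV i j).indicator (fun z => (1 - ee i z)⁻¹) z‖ ≤ ε
  rw [pow_zero, one_mul]
  by_cases h : z ∈ VV i j
  · rw [Set.indicator_of_mem h, Set.indicator_of_mem h]
    have := GG_sub i j h J
    linarith
  · rw [Set.indicator_of_notMem h, Set.indicator_of_notMem h, sub_zero, norm_zero]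
    exact hε.le

end Pool.Agent.H396Z.Ferrier
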