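import Pool.Agent.H396Z.Ferrier.Main

set_option autoImplicit false

namespace Pool.Agent.H396Z.Ferrier

open Filter Topology

variable {n : ℕ} {i j : Fin n}

/-- Complex lines through the origin. -/
noncomputable def zl (i j : Fin n) (ζ : ℝ) (σ : ℂ) : EuclideanSpace ℂ (Fin n) :=
  σ • (EuclideanSpace.single i (1 : ℂ) + EuclideanSpace.single j (ζ : ℂ))

theorem zl_i (hij : i ≠ j) (ζ : ℝ) (σ : ℂ) : zl i j ζ σ i = σ := by
  simp [zl, hij]

theorem zl_j (hij : i ≠ j) (ζ : ℝ) (σ : ℂ) : zl i j ζ σ j = σ * ζ := by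
  simp [zl, hij.symm]

theorem norm_zl {ζ : ℝ} (h0 : 0 < ζ) (h1 : ζ ≤ 1) (σ : ℂ) : ‖zl i j ζ σ‖ ≤ 2 * ‖σ‖ := by
  unfold zl
  rw [norm_smul, mul_comm]
  gcongr
  refine (norm_add_le _ _).trans ?_
  simp only [EuclideanSpace.single, PiLp.norm_single, norm_one, Complex.norm_real, Real.norm_eq_abs,
    abs_of_pos h0]
  linarith

theorem diff_zl (ζ : ℝ) : Differentiable ℂ (zl i j ζ) :=
  differentiable_id.smul_const _

theorem d0_zl (hij : i ≠ j) {ζ : ℝ} (h0 : 0 < ζ) (h1 : ζ ≤ 1) {σ : ℂ} (hσ : 0 ≤ σ.re) :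
    1 ≤ d0 i j (zl i j ζ σ) * (3 * Real.exp σ.re * ‖1 + σ‖) := by
  obtain ⟨a1, a2⟩ := norm_one_add_ge hσ
  have ha : aa i j (zl i j ζ σ) = σ.re := by
    unfold aa
    rw [zl_i hij, zl_j hij, Complex.re_mul_ofReal]
    apply max_eq_left
    apply max_le _ hσ
    have : 0 ≤ σ.re * ζ := by positivity
    linarith
  have a3 := norm_zl (i := i) (j := j) h0 h1 σ
  have a4 : 1 ≤ Real.exp σ.re := Real.one_le_exp hσ
  unfold d0
  rw [ha]
  rcases min_choice (Real.exp (-σ.re)) (1 + ‖zl i j ζ σ‖)⁻¹ with h | h <;> rw [h]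
  · have : Real.exp (-σ.re) * Real.exp σ.re = 1 := by rw [← Real.exp_add]; simp
    calc (1 : ℝ) ≤ 3 * 1 * ‖1 + σ‖ := by linarith
      _ = _ := by rw [← this]; ring
  · rw [← div_eq_inv_mul, le_div_iff₀ (by positivity)]
    nlinarith

theorem le_of_weight {d K x C : ℝ} {N : ℕ} (hK : 0 ≤ K) (hx : 0 ≤ x) (h1 : 1 ≤ d * K)
    (h2 : d ^ N * x ≤ C) : x ≤ C * K ^ N := by
  calc x = 1 * x := (one_mul x).symm
    _ ≤ (d * K) ^ N * x := by gcongr; exact one_le_pow₀ h1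
    _ = (d ^ N * x) * K ^ N := by ring
    _ ≤ C * K ^ N := by gcongr

theorem gbound {F E : ℂ} {C t w : ℝ} {M : ℕ} (hC : 0 ≤ C) (ht : 0 ≤ t) (hw : 1 ≤ w)
    (hF : ‖F‖ ≤ C * (3 * Real.exp t * w) ^ M) (hE : ‖E‖ ≤ Real.exp t) :
    ‖F * (1 - E) - 1‖ ≤ (2 * C * 3 ^ M + 1) * (Real.exp (((M + 1 : ℕ) : ℝ) * t) * w ^ M) := by
  have a1 : 1 ≤ Real.exp t := Real.one_le_exp ht
  have a2 : ‖1 - E‖ ≤ 2 * Real.exp t := by
    have := norm_sub_le (1 : ℂ) E
    rw [norm_one] at this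
    linarith
  have a3 : 1 ≤ Real.exp t ^ (M + 1) * w ^ M :=
    one_le_mul_of_one_le_of_one_le (one_le_pow₀ a1) (one_le_pow₀ hw)
  rw [Real.exp_nat_mul]
  calc _ ≤ ‖F‖ * ‖1 - E‖ + 1 := by
        have := norm_sub_le (F * (1 - E)) 1
        rwa [norm_mul, norm_one] at this
    _ ≤ C * (3 * Real.exp t * w) ^ M * (2 * Real.exp t) + Real.exp t ^ (M + 1) * w ^ M := by
        gcongr
    _ = _ := by ring

theorem uu_not_mem (hij : i ≠ j) : uu i j ∉ L (w0 i j) (w1 i j) := by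
  rintro ⟨N, v, hv, hlim⟩
  set m0 : ℝ := Real.exp (-((N + 1 : ℕ) : ℝ) * 2) * (3⁻¹) ^ N * Real.exp (-1) with hm0
  have hm0pos : 0 < m0 := by positivity
  set ε : ℝ := m0 / (4 * 60 ^ N) with hε
  have hεpos : 0 < ε := by positivity
  obtain ⟨k, hk⟩ := (hlim ε hεpos).exists
  obtain ⟨⟨f, hf, hf0, M, C, hC⟩, hvf⟩ := hv k
  have hfd : Differentiable ℂ f := fun z =>
    hf.differentiableAt ((isOpen_S _).mem_nhds (mem_S0 i j z))
  have hC' : ∀ z, d0 i j z ^ M * ‖f z‖ ≤ C := fun z => hC z (mem_S0 i j z)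
  have hC0 : 0 ≤ C := le_trans (by have := (d0_pos i j 0).le; positivity) (hC' 0)
  have hk' : ∀ z ∈ S (w1 i j), d1 i j z ^ N *
      ‖f z - (VV i j).indicator (fun z => (1 - ee i z)⁻¹) z‖ ≤ ε := by
    intro z hz
    have := hk z hz
    rw [hvf z hz] at this
    exact this
  set l : ℝ := 2 * ((M : ℝ) + 1) with hl
  have hl1 : 1 ≤ l := by
    have : (0 : ℝ) ≤ M := Nat.cast_nonneg M
    linarith
  set b : ℝ := 2 * C * 3 ^ M + 1 with hb
  set c : ℝ := 2 * ε * 3 ^ N + 1 with hc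
  have key : ∀ ζ : ℝ, 0 < ζ → ζ ≤ 1 →
      m0 ≤ 2 * ε * 60 ^ N + b * l ^ (M + 1) * (1 / (20 * ζ))⁻¹ + c * l ^ (M + 1) * (4 / ζ)⁻¹ := by
    intro ζ h0 h1
    have hee : ∀ σ : ℂ, ‖ee i (zl i j ζ σ)‖ ≤ Real.exp σ.re := by
      intro σ
      rw [norm_ee, zl_i hij]
      exact Real.exp_le_exp.2 (by linarith)
    have hs := strip_bound (fun σ => f (zl i j ζ σ) * (1 - ee i (zl i j ζ σ)) - 1)
      (((hfd.comp (diff_zl ζ)).mul (((diff_ee i).comp (diff_zl ζ)).const_sub 1)).sub_const 1)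
      N M (l := l) (R := 4 / ζ) (T := 1 / (20 * ζ)) (a := 2 * ε * 60 ^ N) (b := b) (c := c) hl1
      (by rw [le_div_iff₀ h0]; linarith) (by positivity) (by positivity) (by positivity)
      (by positivity) ?_ ?_ ?_
    · have e1 : ee i (zl i j ζ 2) = 1 := by
        unfold ee; rw [zl_i hij, sub_self, Complex.exp_zero]
      simp only [e1, sub_self, mul_zero, zero_sub, norm_neg, norm_one, one_mul] at hs
      exact (mult_two N M).trans hs
    · intro σ hσ hT
      have a0 := (norm_one_add_ge hσ.ge).1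
      have hx : ‖zl i j ζ σ j‖ ≤ 1 / 20 := by
        rw [zl_j hij, norm_mul, Complex.norm_real, Real.norm_eq_abs, abs_of_pos h0]
        rw [le_div_iff₀ (by positivity)] at hT
        linarith
      have hV : zl i j ζ σ ∈ VV i j := ⟨by rw [zl_i hij, hσ]; norm_num, by linarith⟩
      have hpsi : 1 / 20 ≤ psi i j (zl i j ζ σ) := by
        refine le_max_of_le_left (le_max_of_le_left (le_min ?_ (by linarith)))
        rw [zl_i hij, hσ]; norm_num
      have hd : 1 ≤ d1 i j (zl i j ζ σ) * (60 * ‖1 + σ‖) := by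
        have a1 := d0_zl hij h0 h1 hσ.ge
        rw [hσ, Real.exp_zero] at a1
        have a2 := d0_pos i j (zl i j ζ σ)
        unfold d1
        rcases min_choice (d0 i j (zl i j ζ σ)) (psi i j (zl i j ζ σ)) with h | h <;> rw [h]
        · nlinarith
        · nlinarith
      have a3 := le_of_weight (by positivity) (norm_nonneg _) hd
        (hk' _ ((mem_S1 i j).2 (Or.inl hV)))
      rw [Set.indicator_of_mem hV] at a3
      have a4 := one_sub_ee_ne i j hV
      have a5 : f (zl i j ζ σ) * (1 - ee i (zl i j ζ σ)) - 1 =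
          (f (zl i j ζ σ) - (1 - ee i (zl i j ζ σ))⁻¹) * (1 - ee i (zl i j ζ σ)) := by
        rw [sub_mul, inv_mul_cancel₀ a4]
      have a6 : ‖1 - ee i (zl i j ζ σ)‖ ≤ 2 := by
        have := norm_sub_le (1 : ℂ) (ee i (zl i j ζ σ))
        rw [norm_one] at this
        linarith [ee_half i j hV]
      show ‖f (zl i j ζ σ) * (1 - ee i (zl i j ζ σ)) - 1‖ ≤ _
      rw [a5, norm_mul]
      calc _ ≤ ε * (60 * ‖1 + σ‖) ^ N * 2 := by gcongr
        _ = _ := by ring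
    · intro σ hσ
      have a0 := (norm_one_add_ge hσ).1
      have a1 := le_of_weight (by positivity) (norm_nonneg _) (d0_zl hij h0 h1 hσ) (hC' _)
      have := gbound hC0 hσ a0 a1 (hee σ)
      rw [mul_assoc]
      exact this
    · intro σ hσ
      have hσ0 : 0 ≤ σ.re := by rw [hσ]; positivity
      have a0 := (norm_one_add_ge hσ0).1
      have hx : (zl i j ζ σ j).re = 4 := by
        rw [zl_j hij, Complex.re_mul_ofReal, hσ]; field_simp
      have hA : 2 < (zl i j ζ σ j).re := by rw [hx]; norm_num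
      have hd : d1 i j (zl i j ζ σ) = d0 i j (zl i j ζ σ) := by
        apply min_eq_left
        refine (d0_le_one i j _).trans (le_max_of_le_left (le_max_of_le_right ?_))
        rw [hx]; norm_num
      have a2 := hk' _ ((mem_S1 i j).2 (Or.inr hA))
      rw [Set.indicator_of_notMem (not_VV i j hA), sub_zero, hd] at a2
      have a1 := le_of_weight (by positivity) (norm_nonneg _) (d0_zl hij h0 h1 hσ0) a2
      exact gbound hεpos.le hσ0 a0 a1 (hee σ)
  set K : ℝ := b * l ^ (M + 1) * 20 + c * l ^ (M + 1) / 4 with hK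
  have hK0 : 0 ≤ K := by positivity
  have h2 := key (min 1 (m0 / (4 * (K + 1)))) (by positivity) (min_le_left _ _)
  have h3 : 2 * ε * 60 ^ N = m0 / 2 := by rw [hε]; field_simp; norm_num
  have h4 : min 1 (m0 / (4 * (K + 1))) ≤ m0 / (4 * (K + 1)) := min_le_right _ _
  have h5 : 0 < min 1 (m0 / (4 * (K + 1))) := by positivity
  generalize min 1 (m0 / (4 * (K + 1))) = ζ at h2 h4 h5
  have h6 : b * l ^ (M + 1) * (1 / (20 * ζ))⁻¹ + c * l ^ (M + 1) * (4 / ζ)⁻¹ = K * ζ := by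
    rw [hK]; field_simp
  rw [le_div_iff₀ (by positivity)] at h4
  nlinarith

end Pool.Agent.H396Z.Ferrier
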